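import Pool.Agent.Helper72.LPth.MoveProof

/-!
# MP_fc92c5_co: three longest paths, two of which meet in almost the same order

If the orders in which two longest paths of a connected graph traverse their common vertices
differ by the reversal of one block or by a rotation, then every third longest path contains
a common vertex of the two paths. In particular this holds if the common vertices of the two
paths form at most two common subpaths.
-/

namespace Pool.Agent.Results.MP_fc92c5_co.OneMove

open Pool.Agent.Helper67.LPath

open Classical in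
/-- the vertices of `P` which lie on `Q`, in the order of `P` -/
noncomputable def common {V : Type} (P Q : List V) : List V := P.filter (· ∈ Q)

/-- `m` arises from `l` by the reversal of a block or by the interchange of an initial and
a final block -/
def Near {V : Type} (l m : List V) : Prop :=
  (∃ X Y Z, l = X ++ (Y ++ Z) ∧ m = X ++ (Y.reverse ++ Z)) ∨ ∃ X Y, l = X ++ Y ∧ m = Y ++ X

/-- all common vertices of `P` and `Q` lie on two subpaths `U`, `W`, which `P` and `Q`
traverse in any order and in any directions -/
def TwoPieces {V : Type} (P Q : List V) : Prop :=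
  ∃ U W U' W' a b c a' b' c' : List V, P = a ++ (U ++ (b ++ (W ++ c))) ∧
    (Q = a' ++ (U' ++ (b' ++ (W' ++ c'))) ∨ Q = a' ++ (W' ++ (b' ++ (U' ++ c')))) ∧
    (U' = U ∨ U' = U.reverse) ∧ (W' = W ∨ W' = W.reverse) ∧
    (∀ v, v ∈ a ∨ v ∈ b ∨ v ∈ c → v ∉ Q) ∧ ∀ v, v ∈ a' ∨ v ∈ b' ∨ v ∈ c' → v ∉ P

theorem result {V : Type} (G : SimpleGraph V) (hG : G.Connected) (P Q R : List V)
    (hP : IsLongest G P) (hQ : IsLongest G Q) (hR : IsLongest G R)
    (h : Near (common P Q) (common Q P) ∨ Near (common P Q) (common Q P).reverse ∨
      TwoPieces P Q) : ∃ v, v ∈ P ∧ v ∈ Q ∧ v ∈ R :=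
  Pool.Agent.Helper72.LPth.MoveProof.main G hG P Q R hP hQ hR h

end Pool.Agent.Results.MP_fc92c5_co.OneMove
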