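import Pool.Agent.Helper72.LPth.Cut

/-!
# MP_fc92c5_co: longest paths which traverse their common vertices in the same order

If any two members of a family of longest paths of a connected graph traverse their common
vertices in the same order, then all members of the family have a common vertex, and every
further longest path of the graph contains a vertex common to all members of the family.
-/

namespace Pool.Agent.Results.MP_fc92c5_co.SameOrder

open Pool.Agent.Helper67.LPath Pool.Agent.Helper72.LPth

/-- `a` occurs before `b` in the list `l` -/
def Before {V : Type} (l : List V) (a b : V) : Prop :=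
  ∃ s t : ℕ, s < t ∧ l[s]? = some a ∧ l[t]? = some b

theorem result {V : Type} (G : SimpleGraph V) (hG : G.Connected)
    {ι : Type} [Nonempty ι] (P : ι → List V) (hP : ∀ i, IsLongest G (P i))
    (hord : ∀ i j a b, Before (P i) a b → a ∈ P j → b ∈ P j → Before (P j) a b)
    (R : List V) (hR : IsLongest G R) :
    ∃ v ∈ R, ∀ i, v ∈ P i := by
  have hlen : ∀ i, (P i).length = R.length := fun i =>
    le_antisymm (hR.2 _ (hP i).1) ((hP i).2 _ hR.1)
  have hpos : 0 < R.length := List.length_pos_iff.2 hR.1.1
  have hL : LongN G R.length := hR.2
  obtain ⟨r, hr, hrR⟩ := exists_pathF hR.1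
  choose p hp hpP using fun i => exists_pathF (hP i).1
  have hp' : ∀ i, PathF G R.length (p i) := fun i => by rw [← hlen i]; exact hp i
  have hpP' : ∀ i t, t < R.length → (P i)[t]? = some (p i t) := fun i t ht =>
    hpP i t (by rw [hlen i]; exact ht)
  have hmem : ∀ i v, v ∈ P i → ∃ t, t < R.length ∧ p i t = v := by
    intro i v hv
    obtain ⟨t, ht, hv⟩ := List.getElem_of_mem hv
    refine ⟨t, by rw [← hlen i]; exact ht, ?_⟩
    have h1 := hpP i t ht
    rw [List.getElem?_eq_getElem ht, hv] at h1
    exact (Option.some.inj h1).symm
  have hmem' : ∀ i t, t < R.length → p i t ∈ P i := fun i t ht =>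
    List.mem_of_getElem? (hpP' i t ht)
  -- a common vertex has the same position in both paths
  have hle : ∀ i j a b, a < R.length → b < R.length → p i a = p j b → a ≤ b := by
    intro i j a b ha hb hab
    have hlen' := hL (seg (p i) 0 (a + 1) ++ seg (p j) (b + 1) (R.length - 1 - b)) ⟨?_, ?_, ?_⟩
    · simp only [List.length_append, length_seg] at hlen'
      omega
    · intro h
      have := congrArg List.length h
      simp at this
    · rw [List.nodup_append]
      refine ⟨seg_nodup (hp' i) (by omega), seg_nodup (hp' j) (by omega), ?_⟩
      rintro x hx y hy rfl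
      obtain ⟨s, -, h2, h3⟩ := mem_seg.1 hx
      obtain ⟨t, h4, h5, h6⟩ := mem_seg.1 hy
      have hsa : s < a := by
        rcases Nat.lt_or_ge s a with h | h
        · exact h
        · exfalso
          have : s = a := by omega
          subst this
          have := (hp' j).inj b t hb (by omega) (by rw [← hab, h3, h6])
          omega
      obtain ⟨s', t', h7, h8, h9⟩ := hord i j x (p i a)
        ⟨s, a, hsa, by rw [hpP' i s (by omega), h3], hpP' i a ha⟩
        (by rw [← h6]; exact hmem' j t (by omega)) (by rw [hab]; exact hmem' j b hb)
      have hs' : s' < R.length := by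
        by_contra h
        rw [List.getElem?_eq_none (by rw [hlen j]; omega)] at h8
        exact absurd h8 (by simp)
      have ht' : t' < R.length := by
        by_contra h
        rw [List.getElem?_eq_none (by rw [hlen j]; omega)] at h9
        exact absurd h9 (by simp)
      rw [hpP' j s' hs'] at h8
      rw [hpP' j t' ht'] at h9
      have e1 := (hp' j).inj s' t hs' (by omega) ((Option.some.inj h8).trans h6.symm)
      have e2 := (hp' j).inj t' b ht' hb ((Option.some.inj h9).trans hab)
      omega
    · refine List.IsChain.append (seg_chain (hp' i) (by omega)) (seg_chain (hp' j) (by omega)) ?_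
      intro x hx y hy
      obtain ⟨h1, h2⟩ := mem_getLast?_seg hx
      obtain ⟨h3, h4⟩ := mem_head?_seg hy
      have h5 : 0 + (a + 1) - 1 = a := by omega
      rw [h5] at h2
      rw [h2, h4, hab]
      exact (hp' j).adj b (by omega)
  have hF : Fam G R.length p :=
    ⟨hp', fun i j a b ha hb h => le_antisymm (hle i j a b ha hb h) (hle j i b a hb ha h.symm)⟩
  obtain ⟨s, t, hs, ht, hst⟩ := main hG hpos hF hL hr
  exact ⟨r s, List.mem_of_getElem? (hrR s hs), fun i => by rw [← hst i]; exact hmem' i t ht⟩

end Pool.Agent.Results.MP_fc92c5_co.SameOrder
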