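import Pool.Agent.Helper67.LPath.C6

/-!
# MP_fc92c5_co: six longest paths without a common vertex

There is a finite connected simple graph with six longest paths that have no common vertex,
so the number `q` of the problem satisfies `q ≤ 5`.
-/

namespace Pool.Agent.Results.MP_fc92c5_co.SixLongestPaths

open Pool.Agent.Helper67.LPath

theorem result :
    ∃ (V : Type) (_ : Fintype V) (G : SimpleGraph V), G.Connected ∧
      ∃ P : Fin 6 → List V, (∀ i, IsLongest G (P i)) ∧ ¬ ∃ v, ∀ i, v ∈ P i := by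
  obtain ⟨V, hV, G, hG, h⟩ := Pool.Agent.Helper67.LPath.C6.six
  refine ⟨V, hV, G, hG, ?_⟩
  unfold PropP at h
  push Not at h
  obtain ⟨P, h1, h2⟩ := h
  exact ⟨P, h1, fun ⟨v, hv⟩ => by
    obtain ⟨i, hi⟩ := h2 v
    exact hi (hv i)⟩

/-- In the words of the problem: `q ≤ 5`. -/
theorem q_le_five (k : ℕ)
    (h : ∀ (V : Type) (_ : Fintype V) (G : SimpleGraph V), G.Connected → PropP k G) :
    k ≤ 5 := by
  by_contra hk
  obtain ⟨V, hV, G, hG, P, h1, h2⟩ := result
  obtain ⟨v, hv⟩ := h V hV G hG (fun i => P ⟨min i.1 5, by omega⟩) (fun i => h1 _)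
  refine h2 ⟨v, fun i => ?_⟩
  have := hv ⟨i.1, by omega⟩
  have h3 : (⟨min i.1 5, by omega⟩ : Fin 6) = i := Fin.ext (by simp only; omega)
  simpa only [h3] using this

end Pool.Agent.Results.MP_fc92c5_co.SixLongestPaths
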